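import Pool.Agent.W282.LF.Stm

/-!
Values of the elements of an imaginary quadratic order, and of algebraic numbers.
-/

namespace Pool.Agent.W578.LF

open Pool.Agent.W282.LF Pool.Agent.W466.EP

theorem quad : S_QUAD := by
  intro L _ Γ₀ _ v _ p hp hv θ a b hθ hd l k hlk
  -- the norm
  obtain ⟨n, hn⟩ : ∃ n : ℤ, n = l ^ 2 + a * l * k - b * k ^ 2 := ⟨_, rfl⟩
  have h4 : 4 * n = (2 * l + a * k) ^ 2 - (a ^ 2 + 4 * b) * k ^ 2 := by rw [hn]; ring
  have hn0 : n ≠ 0 := by
    intro h0
    rw [h0] at h4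
    by_cases hk : k = 0
    · subst hk
      have : l ^ 2 = 0 := by nlinarith
      rcases hlk with h | h
      · exact h (pow_eq_zero_iff (two_ne_zero) |>.1 this)
      · exact h rfl
    · have h1 : 0 < k ^ 2 := by positivity
      nlinarith [sq_nonneg (2 * l + a * k)]
  set x : L := (l : L) + k * θ with hx
  set x' : L := (l : L) + k * (a - θ) with hx'
  have hxx : x * x' = (n : L) := by
    rw [hx, hx', hn]
    push_cast
    linear_combination (-(k : L) ^ 2) * hθ
  have hs : x + x' = ((2 * l + a * k : ℤ) : L) := by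
    rw [hx, hx']
    push_cast
    ring
  have hn0' : (n : L) ≠ 0 := by exact_mod_cast hn0
  have hx0 : x ≠ 0 := by
    intro h
    rw [h, zero_mul] at hxx
    exact hn0' hxx.symm
  refine ⟨hx0, ?_⟩
  have hp0 : (p : L) ≠ 0 := by exact_mod_cast hp.ne_zero
  set π := v (p : L) with hπ
  have hπ0 : π ≠ 0 := (Valuation.ne_zero_iff v).2 hp0
  -- integrality
  have hθ1 : v θ ≤ 1 := by
    by_contra hcon
    push Not at hcon
    have h1 : v (θ ^ 2) ≤ v θ := by
      rw [hθ]
      refine v.map_add_le ?_ ?_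
      · rw [map_mul]
        exact mul_le_of_le_one_left' (v_int v a)
      · exact (v_int v b).trans hcon.le
    rw [map_pow, pow_two] at h1
    have h2 : v θ * 1 < v θ * v θ := by
      apply mul_lt_mul_of_pos_left hcon
      exact zero_lt_one.trans hcon
    rw [mul_one] at h2
    exact absurd h1 (not_le.2 h2)
  have hint : ∀ c d : ℤ, ∀ z : L, v z ≤ 1 → v ((c : L) + d * z) ≤ 1 := by
    intro c d z hz
    refine v.map_add_le (v_int v c) ?_
    rw [map_mul]
    exact mul_le_one' (v_int v d) hz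
  have hx1 : v x ≤ 1 := hint l k θ hθ1
  have hx1' : v x' ≤ 1 := by
    apply hint l k
    refine (v.map_sub _ _).trans (max_le (v_int v a) hθ1)
  obtain ⟨i, hi⟩ : ∃ i : ℕ, v x * v x' = π ^ i := by
    rw [← map_mul, hxx]
    exact ⟨_, v_int_pow hp hv hn0⟩
  by_cases heq : v x = v x'
  · exact ⟨i, by rw [← hi, ← heq, pow_two]⟩
  · have hsum : v ((2 * l + a * k : ℤ) : L) = max (v x) (v x') := by
      rw [← hs]
      exact Valuation.map_add_of_distinct_val v heq
    have hs0 : (2 * l + a * k : ℤ) ≠ 0 := by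
      intro h0
      rw [h0, Int.cast_zero, map_zero] at hsum
      have h1 : 0 < v x := zero_lt_iff.2 ((Valuation.ne_zero_iff v).2 hx0)
      exact absurd hsum (ne_of_lt (lt_max_of_lt_left h1))
    rw [v_int_pow hp hv hs0] at hsum
    set m := (2 * l + a * k : ℤ).natAbs.factorization p with hm
    rcases lt_or_gt_of_ne heq with h | h
    · rw [max_eq_right h.le] at hsum
      -- v x' = π ^ m
      change π ^ m = v x' at hsum
      rw [← hsum] at hi h
      have h2 : π ^ i ≤ π ^ (2 * m) := by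
        rw [← hi, two_mul, pow_add]
        exact mul_le_mul_left h.le _
      have h3 : 2 * m ≤ i := by
        by_contra hc
        push Not at hc
        have : π ^ (2 * m) < π ^ i := pow_lt_pow_right_of_lt_one₀ (zero_lt_iff.2 hπ0) hv hc
        exact absurd h2 (not_le.2 this)
      refine ⟨2 * (i - m), ?_⟩
      have h4 : v x = π ^ (i - m) := by
        have h5 : π ^ (i - m) * π ^ m = π ^ i := by rw [← pow_add]; congr 1; omega
        rw [← h5] at hi
        exact mul_right_cancel₀ (pow_ne_zero _ hπ0) hi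
      rw [h4, ← pow_mul, mul_comm]
    · rw [max_eq_left h.le] at hsum
      refine ⟨2 * m, ?_⟩
      rw [← hsum, ← pow_mul, mul_comm]

theorem int_le (V : ValuationSubring ℂ) {z : ℂ} (h : IsIntegral ℤ z) : V.valuation z ≤ 1 := by
  rw [ValuationSubring.valuation_le_one_iff]
  have h2 : IsIntegral V z := h.tower_top
  obtain ⟨y, hy⟩ := IsIntegrallyClosed.isIntegral_iff.1 h2
  rw [← hy]
  exact y.2

theorem upper (V : ValuationSubring ℂ) (p : ℕ) (hp : p.Prime) (hv : V.valuation (p : ℂ) < 1)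
    (z : ℂ) (hz : IsAlgebraic ℚ z) : ∃ M : ℕ, V.valuation z * V.valuation (p : ℂ) ^ M ≤ 1 := by
  have hz' : IsAlgebraic ℤ z := (IsFractionRing.isAlgebraic_iff ℤ ℚ ℂ).2 hz
  obtain ⟨y, hy0, hy⟩ := hz'.exists_integral_multiple
  refine ⟨y.natAbs.factorization p, ?_⟩
  rw [← v_int_pow hp hv hy0, mul_comm, ← map_mul]
  have := int_le V hy
  rwa [zsmul_eq_mul] at this

theorem algv : S_ALGV := by
  intro V p hp hpV z hz hz0
  have hv : V.valuation (p : ℂ) < 1 := V.mem_nonunits_iff.1 hpV
  have hp0 : (p : ℂ) ≠ 0 := by exact_mod_cast hp.ne_zero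
  have hπ0 : V.valuation (p : ℂ) ≠ 0 := (Valuation.ne_zero_iff _).2 hp0
  obtain ⟨M, hM⟩ := upper V p hp hv z hz
  obtain ⟨M', hM'⟩ := upper V p hp hv z⁻¹ hz.inv
  have hmono : ∀ m, V.valuation (p : ℂ) ^ (M + M') ≤ V.valuation (p : ℂ) ^ m ∨ M + M' < m := by
    intro m
    by_cases h : m ≤ M + M'
    · left
      exact pow_le_pow_right_of_le_one' hv.le h
    · right; omega
  refine ⟨M + M', ?_, ?_⟩
  · have h1 : V.valuation (p : ℂ) ^ (M + M') ≤ V.valuation (p : ℂ) ^ M' :=
      pow_le_pow_right_of_le_one' hv.le (by omega)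
    refine h1.trans ?_
    rw [map_inv₀] at hM'
    have h2 : V.valuation z ≠ 0 := (Valuation.ne_zero_iff _).2 hz0
    calc V.valuation (p : ℂ) ^ M' = V.valuation z * ((V.valuation z)⁻¹ * V.valuation (p : ℂ) ^ M') := by
          rw [← mul_assoc, mul_inv_cancel₀ h2, one_mul]
      _ ≤ V.valuation z * 1 := mul_le_mul_right hM' _
      _ = V.valuation z := mul_one _
  · refine le_trans ?_ hM
    exact mul_le_mul_right (pow_le_pow_right_of_le_one' hv.le (by omega)) _

end Pool.Agent.W578.LF
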